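import Pool.Agent.Helper62.MU.St

/-!
# Project MU, module PSI
-/

set_option autoImplicit false

open MeasureTheory Metric Set Filter Topology

namespace Pool.Agent.Helper72.MU

open Pool.Agent.Helper62.MU

theorem sg_pos (x : ℝ) : 0 < sg x := Real.sqrt_pos.mpr (by positivity)

theorem sg_sq (x : ℝ) : sg x ^ 2 = 1 + x ^ 2 := Real.sq_sqrt (by positivity)

theorem one_le_sg (x : ℝ) : 1 ≤ sg x := by
  nlinarith [sg_sq x, sg_pos x, sq_nonneg x]

theorem hasDerivAt_sg (x : ℝ) : HasDerivAt sg (x / sg x) x := by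
  have h1 : HasDerivAt (fun y : ℝ => 1 + y ^ 2) (2 * x) x := by
    simpa using ((hasDerivAt_id x).pow 2).const_add 1
  have h2 := h1.sqrt (by positivity)
  have h3 : 2 * x / (2 * √(1 + x ^ 2)) = x / sg x := by
    unfold sg
    rw [mul_div_mul_left _ _ (by norm_num : (2 : ℝ) ≠ 0)]
  rw [h3] at h2
  exact h2

/-- the comparison function -/
noncomputable def ps (m : ℕ) (x : ℝ) : ℝ :=
  x * (2 + ((m : ℝ) + 2) * x ^ 2) / (m * (1 + ((m : ℝ) + 2) * x ^ 2) * sg x ^ (m + 1))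

theorem ps_deriv (m : ℕ) (hm : 1 ≤ m) (x : ℝ) :
    HasDerivAt (fun y => - ps m y)
      (x ^ 2 / sg x ^ (m + 3) - 2 / (m * (1 + ((m : ℝ) + 2) * x ^ 2) ^ 2 * sg x ^ (m + 1))) x := by
  have hs := sg_pos x
  have hsq := sg_sq x
  have hm0 : (0 : ℝ) < m := by exact_mod_cast hm
  have hq : (0 : ℝ) < 1 + ((m : ℝ) + 2) * x ^ 2 := by positivity
  have h0 : HasDerivAt (fun y : ℝ => y) 1 x := hasDerivAt_id x
  have h1 : HasDerivAt (fun y : ℝ => y ^ 2) (2 * x) x := by simpa using hasDerivAt_pow 2 x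
  have hN : HasDerivAt (fun y : ℝ => y * (2 + ((m : ℝ) + 2) * y ^ 2))
      (1 * (2 + ((m : ℝ) + 2) * x ^ 2) + x * (((m : ℝ) + 2) * (2 * x))) x :=
    h0.mul ((h1.const_mul _).const_add _)
  have hP : HasDerivAt (fun y : ℝ => sg y ^ (m + 1)) (((m : ℝ) + 1) * sg x ^ m * (x / sg x)) x := by
    have h := (hasDerivAt_sg x).pow (m + 1)
    refine (h.congr_deriv ?_)
    simp
  have hD : HasDerivAt (fun y : ℝ => (m : ℝ) * (1 + ((m : ℝ) + 2) * y ^ 2) * sg y ^ (m + 1))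
      ((m : ℝ) * (((m : ℝ) + 2) * (2 * x)) * sg x ^ (m + 1) +
        (m : ℝ) * (1 + ((m : ℝ) + 2) * x ^ 2) * (((m : ℝ) + 1) * sg x ^ m * (x / sg x))) x :=
    (((h1.const_mul _).const_add _).const_mul _).mul hP
  have hne : (m : ℝ) * (1 + ((m : ℝ) + 2) * x ^ 2) * sg x ^ (m + 1) ≠ 0 := by positivity
  have h := (hN.div hD hne).neg
  refine h.congr_deriv ?_
  have hp : 0 < sg x ^ m := pow_pos hs m
  rw [pow_add (sg x) m 1, pow_add (sg x) m 3]
  set P := sg x ^ m with hPdef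
  set s := sg x with hsdef
  set n : ℝ := (m : ℝ) + 2 with hn
  have hmn : (m : ℝ) = n - 2 := by rw [hn]; ring
  have e1 : x ^ 2 / (P * s ^ 3) - 2 / ((m : ℝ) * (1 + n * x ^ 2) ^ 2 * (P * s ^ 1)) =
      (m * (1 + n * x ^ 2) ^ 2 * x ^ 2 - 2 * s ^ 2) / ((m : ℝ) * (1 + n * x ^ 2) ^ 2 * (P * s ^ 3)) := by
    rw [div_sub_div _ _ (by positivity) (by positivity), div_eq_div_iff (by positivity) (by positivity)]
    ring
  have e2 : -(((1 * (2 + n * x ^ 2) + x * (n * (2 * x))) * ((m : ℝ) * (1 + n * x ^ 2) * (P * s ^ 1)) -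
      x * (2 + n * x ^ 2) * ((m : ℝ) * (n * (2 * x)) * (P * s ^ 1) +
        (m : ℝ) * (1 + n * x ^ 2) * (((m : ℝ) + 1) * P * (x / s)))) /
      ((m : ℝ) * (1 + n * x ^ 2) * (P * s ^ 1)) ^ 2) =
      -((2 + 3 * n * x ^ 2) * (1 + n * x ^ 2) * s ^ 2 -
        x ^ 2 * (2 + n * x ^ 2) * (2 * n * s ^ 2 + (1 + n * x ^ 2) * (m + 1))) /
        ((m : ℝ) * (1 + n * x ^ 2) ^ 2 * (P * s ^ 3)) := by
    field_simp
    ring
  rw [e1, e2]
  congr 1
  rw [hsq, hmn]
  ring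

theorem psi_int (m : ℕ) (hm : 1 ≤ m) : Integrable (fun y : ℝ => y ^ 2 / sg y ^ (m + 3)) := by
  have hc : Continuous sg := by
    unfold sg
    fun_prop
  refine integrable_inv_one_add_sq.mono' ?_ ?_
  · refine Continuous.aestronglyMeasurable ?_
    exact (continuous_pow 2).div (hc.pow _) (fun y => (pow_pos (sg_pos y) _).ne')
  · refine Filter.Eventually.of_forall fun y => ?_
    have h1 := one_le_sg y
    have h2 := sg_sq y
    have hs := sg_pos y
    rw [Real.norm_eq_abs, abs_of_nonneg (by positivity), ← h2, div_le_iff₀ (by positivity)]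
    have h3 : sg y ^ 4 ≤ sg y ^ (m + 3) := pow_le_pow_right₀ h1 (by omega)
    calc y ^ 2 ≤ sg y ^ 2 := by rw [h2]; linarith
      _ = (sg y ^ 2)⁻¹ * sg y ^ 4 := by field_simp
      _ ≤ (sg y ^ 2)⁻¹ * sg y ^ (m + 3) := by gcongr

theorem psi_int2 (m : ℕ) (hm : 1 ≤ m) :
    Integrable (fun y : ℝ => 2 / (m * (1 + ((m : ℝ) + 2) * y ^ 2) ^ 2 * sg y ^ (m + 1))) := by
  have hm0 : (1 : ℝ) ≤ m := by exact_mod_cast hm
  have hc : Continuous sg := by
    unfold sg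
    fun_prop
  refine (integrable_inv_one_add_sq.const_mul 2).mono' ?_ ?_
  · refine Continuous.aestronglyMeasurable ?_
    refine continuous_const.div ?_ (fun y => ?_)
    · exact (by fun_prop : Continuous fun y : ℝ => (m : ℝ) * (1 + ((m : ℝ) + 2) * y ^ 2) ^ 2).mul
        (hc.pow _)
    · have := sg_pos y
      have : (0 : ℝ) < m * (1 + ((m : ℝ) + 2) * y ^ 2) ^ 2 * sg y ^ (m + 1) := by positivity
      exact this.ne'
  · refine Filter.Eventually.of_forall fun y => ?_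
    have h1 := one_le_sg y
    have h2 := sg_sq y
    have hs := sg_pos y
    have hd : (0 : ℝ) < m * (1 + ((m : ℝ) + 2) * y ^ 2) ^ 2 * sg y ^ (m + 1) := by positivity
    rw [Real.norm_eq_abs, abs_of_nonneg (by positivity), ← h2, ← div_eq_mul_inv,
      div_le_div_iff_of_pos_left (by norm_num) hd (by positivity)]
    have h3 : sg y ^ 2 ≤ sg y ^ (m + 1) := pow_le_pow_right₀ h1 (by omega)
    have h4 : (1 : ℝ) ≤ (1 + ((m : ℝ) + 2) * y ^ 2) ^ 2 := by
      apply one_le_pow₀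
      have : 0 ≤ ((m : ℝ) + 2) * y ^ 2 := by positivity
      linarith
    calc sg y ^ 2 = 1 * 1 * sg y ^ 2 := by ring
      _ ≤ m * (1 + ((m : ℝ) + 2) * y ^ 2) ^ 2 * sg y ^ (m + 1) := by gcongr

theorem ps_lim (m : ℕ) (hm : 1 ≤ m) : Tendsto (fun y => - ps m y) atTop (𝓝 0) := by
  have hm0 : (1 : ℝ) ≤ m := by exact_mod_cast hm
  have h1 : Tendsto (fun y : ℝ => -(2 * y⁻¹)) atTop (𝓝 0) := by
    have := (tendsto_inv_atTop_zero (𝕜 := ℝ)).const_mul 2
    simpa using this.neg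
  refine tendsto_of_tendsto_of_tendsto_of_le_of_le' h1 tendsto_const_nhds ?_ ?_
  · filter_upwards [eventually_gt_atTop 0] with y hy
    have hs := sg_pos y
    have h2 := sg_sq y
    have h3 := one_le_sg y
    have h4 : sg y ^ 2 ≤ sg y ^ (m + 1) := pow_le_pow_right₀ h3 (by omega)
    apply neg_le_neg
    unfold ps
    rw [div_le_iff₀ (by positivity)]
    have h5 : y * (2 + ((m : ℝ) + 2) * y ^ 2) ≤ y * (2 * (1 + ((m : ℝ) + 2) * y ^ 2)) := by
      gcongr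
      have : 0 ≤ ((m : ℝ) + 2) * y ^ 2 := by positivity
      linarith
    have h6 : y ^ 2 ≤ sg y ^ (m + 1) := by rw [h2] at h4; linarith
    calc y * (2 + ((m : ℝ) + 2) * y ^ 2) ≤ y * (2 * (1 + ((m : ℝ) + 2) * y ^ 2)) := h5
      _ = 2 * y⁻¹ * (1 * (1 + ((m : ℝ) + 2) * y ^ 2) * y ^ 2) := by field_simp
      _ ≤ 2 * y⁻¹ * (m * (1 + ((m : ℝ) + 2) * y ^ 2) * sg y ^ (m + 1)) := by gcongr
  · filter_upwards [eventually_gt_atTop 0] with y hy
    have hs := sg_pos y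
    have : 0 ≤ ps m y := by
      unfold ps
      positivity
    linarith

theorem hPSI : StPSI := by
  intro m x hm hx
  have h1 := psi_int m hm
  have h2 := psi_int2 m hm
  have h3 := integral_Ioi_of_hasDerivAt_of_tendsto' (a := x) (fun y _ => ps_deriv m hm y)
    ((h1.sub h2).integrableOn) (ps_lim m hm)
  have h4 : ps m x ≤ ∫ y in Ioi x, y ^ 2 / sg y ^ (m + 3) := by
    have h5 : ps m x = 0 - (- ps m x) := by ring
    rw [h5, ← h3]
    refine integral_mono (h1.sub h2).integrableOn h1.integrableOn ?_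
    intro y
    have hs := sg_pos y
    have hm0 : (0 : ℝ) < m := by exact_mod_cast hm
    have : 0 ≤ 2 / (m * (1 + ((m : ℝ) + 2) * y ^ 2) ^ 2 * sg y ^ (m + 1)) := by positivity
    show y ^ 2 / sg y ^ (m + 3) - 2 / (m * (1 + ((m : ℝ) + 2) * y ^ 2) ^ 2 * sg y ^ (m + 1)) ≤ _
    linarith
  exact h4

end Pool.Agent.Helper72.MU
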